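import Pool.Agent.H65.APCot
import Pool.Agent.H65.APBound

/-!
# MP_fb78f2_nt: `a(n) = b(n)` for all `n ≤ N` with at most `O(N ^ ε)` exceptions

Let `A(n) = (n / 4) cot (π / n)` be the area of the regular `n`-gon with sides of length `1`, let
`B(n) = n² / (4 π) - π / 12`, `a(n) = ⌊A(n)⌋` and `b(n) = ⌊B(n)⌋`. The question is whether `a(n) = b(n)` for all
`n ≥ 3`. We prove, unconditionally, that for every `ε > 0` the number of exceptions `n ≤ N` is `O(N ^ ε)`.
(The proof shows more precisely that the number of exceptions in `[N, 9 N / 8]` is at most `12 d(X)` for some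
positive integer `X ≤ N²`, where `d` is the number of divisors: `Pool.Agent.H65.AP.block_divisors`.)

Proof. For an exception `n` there is an integer `m` with `0 ≤ B(n) - m < 1 / n²`. For the exceptions in a short
interval the points `(n², m)` are so close to the line `x / (4 π) - y = π / 12` that they are on one line, with a
primitive direction `(X, M)`; so `n² = a² + k X`, `0 ≤ k ≤ K`, where `a` is the smallest one, and
`X / (4 π) - M = O(1 / (K N²))`. For `P = a² M - m(a) X` this gives `P - X π / 12 = O(1 / K)`: the fractions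
`X / (4 M)` and `12 P / X` are both close to `π`. If `s` divides `2 a` and `s²` divides `X`, then `s²` divides `4 P`,
so the second fraction has a denominator `≤ X / s²`. The two fractions are different for `N ≥ 6`, and comparing
them gives `K s² = O(X)`, with `K X ≤ N²` also `K s = O(N)`. Finally the solutions of `X ∣ (n - a) (n + a)` are in
`d(X)` classes modulo numbers `X / s` with such `s`, and each class contains `O(1 + K s / N)` of them.
-/

set_option autoImplicit false

namespace Pool.Agent.Results.MP_fb78f2_nt.SparseExceptions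

open Real Finset Pool.Agent.H65.AP

noncomputable section

/-- the area of the regular `n`-gon with sides of length `1` -/
def A (n : ℕ) : ℝ := n / 4 * Real.cot (π / n)

/-- `a(n)`, the integer part of the area -/
def a (n : ℕ) : ℤ := ⌊A n⌋

/-- `b(n) = ⌊n² / (4 π) - π / 12⌋` -/
def b (n : ℕ) : ℤ := ⌊(n : ℝ) ^ 2 / (4 * π) - π / 12⌋

open Classical in
/-- the number of integers `3 ≤ n ≤ N` with `a(n) ≠ b(n)` -/
def exceptions (N : ℕ) : ℕ := ((Icc 3 N).filter (fun n => a n ≠ b n)).card

theorem near_of_ne (n : ℕ) (hn : 4 ≤ n) (h : a n ≠ b n) : Near n := by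
  obtain ⟨h1, h2⟩ := area_bounds n hn
  refine ⟨b n, ?_, ?_⟩
  · have := Int.floor_le ((n : ℝ) ^ 2 / (4 * π) - π / 12)
    unfold b
    linarith
  · have h3 : A n < b n := by
      by_contra hcon
      push Not at hcon
      apply h
      have h4 : b n ≤ a n := Int.le_floor.2 hcon
      have h5 : a n ≤ b n := Int.floor_le_floor h2
      exact le_antisymm h5 h4
    unfold A at h3
    linarith

/-- **Main theorem.** For every `ε > 0` there is `C` such that for all `N` at most `C N ^ ε` of the integers
`3 ≤ n ≤ N` have `a(n) ≠ b(n)`. -/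
theorem result (ε : ℝ) (hε : 0 < ε) : ∃ C : ℝ, ∀ N : ℕ, (exceptions N : ℝ) ≤ C * (N : ℝ) ^ ε := by
  classical
  obtain ⟨C, hC, h⟩ := block_bound ε hε
  refine ⟨C / (1 - (17 / 18 : ℝ) ^ ε) + 17, fun N => ?_⟩
  rcases Nat.eq_zero_or_pos N with h0 | hN
  · subst h0
    have : exceptions 0 = 0 := by simp [exceptions]
    rw [this]
    have : ((0 : ℕ) : ℝ) ^ ε = 0 := by rw [Nat.cast_zero, Real.zero_rpow hε.ne']
    rw [this]
    simp
  · have h1 := count_bound (fun n => 3 ≤ n ∧ a n ≠ b n) ε C hε hC (fun N hN S hS => h N hN S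
      (fun n hn => ⟨(hS n hn).1, (hS n hn).2.1,
        near_of_ne n (le_trans (by omega) (hS n hn).1) (hS n hn).2.2.2⟩)) N hN
    refine le_trans ?_ h1
    have h2 : exceptions N ≤ ((Icc 1 N).filter (fun n => 3 ≤ n ∧ a n ≠ b n)).card := by
      unfold exceptions
      apply card_le_card
      intro n hn
      rw [mem_filter, mem_Icc] at hn ⊢
      exact ⟨⟨by omega, hn.1.2⟩, hn.1.1, hn.2⟩
    exact_mod_cast h2

end

end Pool.Agent.Results.MP_fb78f2_nt.SparseExceptions
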